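import Pool.Agent.D0H21.PA.Val

/-!
# The Lindemann-Weierstrass theorem with coefficients in a finite dimensional space
-/

set_option autoImplicit false

namespace Pool.Agent.D0H21.PA

open Polynomial Finset

section

variable {V : Submodule ℚ ℂ} {B : ValuationSubring ℂ}

omit V in
/-- the core: values `v(w_β) v(e^β)` must coincide -/
lemma coincide (s : Finset ℂ) (f : ℂ → ℂ)
    (hne : ∀ β ∈ s, ∀ γ ∈ s, β ≠ γ → f β ≠ 0 → f γ ≠ 0 →
      B.valuation (f β) / B.valuation (f γ) ≠ B.valuation (Complex.exp (γ - β)))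
    (h0 : ∑ β ∈ s, f β * Complex.exp β = 0) : ∀ β ∈ s, f β = 0 := by
  intro β hβ
  have h1 := sum_zero B.valuation s (fun β => f β * Complex.exp β) ?_ h0 β hβ
  · exact (mul_eq_zero.1 h1).resolve_right (Complex.exp_ne_zero _)
  · intro β hβ γ hγ h2 h3 h4
    by_contra hβγ
    have h5 := left_ne_zero_of_mul h2
    have h6 := left_ne_zero_of_mul h3
    apply hne β hβ γ hγ hβγ h5 h6
    rw [map_mul, map_mul] at h4
    have h7 : B.valuation (f γ) ≠ 0 := B.valuation.ne_zero_iff.2 h6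
    have h8 : B.valuation (Complex.exp β) ≠ 0 := B.valuation.ne_zero_iff.2 (Complex.exp_ne_zero _)
    rw [Complex.exp_sub, map_div₀, div_eq_div_iff h7 h8, h4, mul_comm]

lemma exp_val (hB : ∀ α : ℂ, IsAlgebraic ℚ α → α ∉ V → B.valuation (Complex.exp α) ≠ 1) {α β : ℂ}
    (hα : IsAlgebraic ℚ α) (hβ : IsAlgebraic ℚ β)
    (h : B.valuation (Complex.exp α) = B.valuation (Complex.exp β)) : α - β ∈ V := by
  by_contra h1
  apply hB (α - β) (hα.sub hβ) h1
  have h2 : B.valuation (Complex.exp β) ≠ 0 := B.valuation.ne_zero_iff.2 (Complex.exp_ne_zero _)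
  rw [Complex.exp_sub, map_div₀, h, div_self h2]

/-- the number of values on a space of dimension `w` -/
lemma values (hB : ∀ z ∈ AA V, z ≠ 0 → B.valuation z = 1) {w : ℕ} (x : Fin w → ℂ) :
    ∃ G : Finset B.ValueGroup, G.card ≤ w ∧ ∀ a : Fin w → ℂ, (∀ i, a i ∈ AA V) →
      ∑ i, a i * x i ≠ 0 → B.valuation (∑ i, a i * x i) ∈ G := by
  classical
  obtain ⟨K, hKV, hK⟩ := AA_field V
  obtain ⟨S, hS⟩ : ∃ S : Set B.ValueGroup, S = {γ | ∃ a : Fin w → ℂ, (∀ i, a i ∈ AA V) ∧
      ∑ i, a i * x i ≠ 0 ∧ B.valuation (∑ i, a i * x i) = γ} := ⟨_, rfl⟩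
  have key : ∀ G : Finset B.ValueGroup, (G : Set B.ValueGroup) ⊆ S → G.card ≤ w := by
    intro G hG
    by_contra hcard
    push Not at hcard
    have h1 : ∀ γ : G, ∃ a : Fin w → ℂ, (∀ i, a i ∈ AA V) ∧ ∑ i, a i * x i ≠ 0 ∧
        B.valuation (∑ i, a i * x i) = γ := by
      intro γ
      have := hG γ.2
      rw [hS] at this
      exact this
    choose a ha hne hval using h1
    have h2 : ¬ LinearIndependent K (fun γ : G => (fun i : Fin w => (⟨a γ i, (hKV _).2 (ha γ i)⟩ : K))) := by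
      intro h
      have := h.fintype_card_le_finrank
      rw [Fintype.card_coe, Module.finrank_fin_fun] at this
      omega
    rw [Fintype.not_linearIndependent_iff] at h2
    obtain ⟨b, hb, γ₀, hγ₀⟩ := h2
    have h3 : ∑ γ : G, (b γ : ℂ) * ∑ i, a γ i * x i = 0 := by
      have h4 : ∀ i, ∑ γ : G, (b γ : ℂ) * a γ i = 0 := by
        intro i
        have h5 := congrFun hb i
        rw [Finset.sum_apply] at h5
        simp only [Pi.smul_apply, smul_eq_mul, Pi.zero_apply] at h5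
        have h6 := congrArg (fun z : K => (z : ℂ)) h5
        simpa using h6
      simp only [Finset.mul_sum]
      rw [Finset.sum_comm]
      refine Finset.sum_eq_zero fun i _ => ?_
      have : ∑ γ : G, (b γ : ℂ) * (a γ i * x i) = (∑ γ : G, (b γ : ℂ) * a γ i) * x i := by
        rw [Finset.sum_mul]
        refine Finset.sum_congr rfl fun γ _ => ?_
        ring
      rw [this, h4, zero_mul]
    have hv : ∀ γ : G, (b γ : ℂ) * ∑ i, a γ i * x i ≠ 0 →
        B.valuation ((b γ : ℂ) * ∑ i, a γ i * x i) = γ := by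
      intro γ h
      have h5 : (b γ : ℂ) ≠ 0 := left_ne_zero_of_mul h
      rw [map_mul, hB _ ((hKV _).1 (b γ).2) h5, one_mul, hval]
    have h7 := sum_zero B.valuation Finset.univ (fun γ : G => (b γ : ℂ) * ∑ i, a γ i * x i)
      (fun γ _ γ' _ h h' hh => by
        rw [hv γ h, hv γ' h'] at hh
        exact Subtype.ext hh) h3 γ₀ (Finset.mem_univ _)
    rcases mul_eq_zero.1 h7 with h8 | h8
    · exact hγ₀ (Subtype.ext h8)
    · exact hne γ₀ h8
  have hfin : S.Finite := by
    by_contra hinf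
    obtain ⟨t, ht, htc⟩ := Set.Infinite.exists_subset_card_eq hinf (w + 1)
    have := key t ht
    omega
  refine ⟨hfin.toFinset, key _ (by rw [Set.Finite.coe_toFinset]), fun a ha hne => ?_⟩
  rw [Set.Finite.mem_toFinset, hS]
  exact ⟨a, ha, hne, rfl⟩

end

/-- **Lindemann-Weierstrass with coefficients in a space of dimension `w`** -/
theorem lw_coef {V : Submodule ℚ ℂ} (hV : AlgSub V) {w : ℕ} (x : Fin w → ℂ) :
    ∃ T : Finset ℂ, T.card ≤ w.choose 2 ∧ (∀ δ ∈ T, IsAlgebraic ℚ δ) ∧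
      ∀ s : Finset ℂ, (∀ β ∈ s, IsAlgebraic ℚ β) →
        (∀ β ∈ s, ∀ γ ∈ s, β ≠ γ → β - γ ∉ V ∧ ∀ δ ∈ T, β - γ - δ ∉ V) →
        ∀ a : ℂ → Fin w → ℂ, (∀ β ∈ s, ∀ i, a β i ∈ AA V) →
          ∑ β ∈ s, (∑ i, a β i * x i) * Complex.exp β = 0 → ∀ β ∈ s, ∑ i, a β i * x i = 0 := by
  classical
  obtain ⟨B, hBA, hB⟩ := exists_val hV
  obtain ⟨G, hGc, hG⟩ := values hBA x
  -- the exceptional differences
  have hch : ∀ t : Finset B.ValueGroup, ∃ δ : ℂ, IsAlgebraic ℚ δ ∧
      ∀ δ' : ℂ, IsAlgebraic ℚ δ' → t ∈ powersetCard 2 G →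
        (∃ g ∈ t, ∃ g' ∈ t, g ≠ g' ∧ B.valuation (Complex.exp δ') = g / g') →
        δ' - δ ∈ V ∨ - δ' - δ ∈ V := by
    intro t
    by_cases hex : t ∈ powersetCard 2 G ∧ ∃ δ : ℂ, IsAlgebraic ℚ δ ∧
        ∃ g ∈ t, ∃ g' ∈ t, g ≠ g' ∧ B.valuation (Complex.exp δ) = g / g'
    · obtain ⟨ht, δ, hδ, g, hg, g', hg', hgg, hval⟩ := hex
      refine ⟨δ, hδ, fun δ' hδ' _ ⟨h, hh, h', hh', hhh, hval'⟩ => ?_⟩
      have htc := (Finset.mem_powersetCard.1 ht).2
      obtain ⟨p, q, hpq, rfl⟩ := Finset.card_eq_two.1 htc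
      simp only [Finset.mem_insert, Finset.mem_singleton] at hg hg' hh hh'
      have hneg : B.valuation (Complex.exp (-δ')) = h' / h := by
        rw [Complex.exp_neg, map_inv₀, hval', inv_div]
      rcases hg with rfl | rfl <;> rcases hg' with rfl | rfl <;> rcases hh with rfl | rfl <;>
        rcases hh' with rfl | rfl <;> first
        | exact absurd rfl hgg
        | exact absurd rfl hhh
        | exact Or.inl (exp_val hB hδ' hδ (hval'.trans hval.symm))
        | exact Or.inr (exp_val hB hδ'.neg hδ (hneg.trans hval.symm))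
    · refine ⟨0, isAlgebraic_zero, fun δ' hδ' ht h => ?_⟩
      exact absurd ⟨ht, δ', hδ', h⟩ hex
  choose δ hδ hδ2 using hch
  refine ⟨(powersetCard 2 G).image δ, ?_, ?_, ?_⟩
  · calc ((powersetCard 2 G).image δ).card ≤ (powersetCard 2 G).card := Finset.card_image_le
      _ = G.card.choose 2 := Finset.card_powersetCard _ _
      _ ≤ w.choose 2 := Nat.choose_le_choose 2 hGc
  · intro d hd
    obtain ⟨t, _, rfl⟩ := Finset.mem_image.1 hd
    exact hδ t
  · intro s hs hT a ha h0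
    refine coincide (B := B) s (fun β => ∑ i, a β i * x i) ?_ h0
    intro β hβ γ hγ hβγ h1 h2 h3
    obtain ⟨h4, h5⟩ := hT γ hγ β hβ (Ne.symm hβγ)
    obtain ⟨h4', h5'⟩ := hT β hβ γ hγ hβγ
    by_cases h6 : B.valuation (∑ i, a β i * x i) = B.valuation (∑ i, a γ i * x i)
    · apply hB (γ - β) ((hs γ hγ).sub (hs β hβ)) h4
      rw [← h3]
      simp only [h6]
      exact div_self (B.valuation.ne_zero_iff.2 h2)
    · obtain ⟨t, ht⟩ : ∃ t : Finset B.ValueGroup, t = {B.valuation (∑ i, a β i * x i),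
          B.valuation (∑ i, a γ i * x i)} := ⟨_, rfl⟩
      have ht2 : t ∈ powersetCard 2 G := by
        rw [Finset.mem_powersetCard, ht, Finset.card_pair h6]
        refine ⟨?_, rfl⟩
        intro g hg
        rw [Finset.mem_insert, Finset.mem_singleton] at hg
        rcases hg with rfl | rfl
        · exact hG _ (ha β hβ) h1
        · exact hG _ (ha γ hγ) h2
      have ht3 : B.valuation (∑ i, a β i * x i) ∈ t := by
        rw [ht]
        exact Finset.mem_insert_self _ _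
      have ht4 : B.valuation (∑ i, a γ i * x i) ∈ t := by
        rw [ht]
        exact Finset.mem_insert_of_mem (Finset.mem_singleton_self _)
      have h7 := hδ2 t (γ - β) ((hs γ hγ).sub (hs β hβ)) ht2 ⟨_, ht3, _, ht4, h6, h3.symm⟩
      have h8 : δ t ∈ (powersetCard 2 G).image δ := Finset.mem_image_of_mem _ ht2
      rcases h7 with h7 | h7
      · exact h5 _ h8 h7
      · rw [neg_sub] at h7
        exact h5' _ h8 h7

end Pool.Agent.D0H21.PA
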