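import Pool.Agent.H340R2.LW

/-!
# Supports of numbers with respect to exponentials of algebraic numbers
-/

set_option autoImplicit false

namespace Pool.Agent.D0H21.PA

open Polynomial Finset

/-- the algebraic matroid of `ℂ` -/
noncomputable abbrev MM : Matroid ℂ := AlgebraicIndependent.matroid ℚ ℂ

/-- the numbers algebraic over the field generated by the `e ^ v`, `v ∈ V` -/
noncomputable def AA (V : Submodule ℚ ℂ) : Set ℂ := MM.closure (Complex.exp '' (V : Set ℂ))

lemma mem_cl {s : Set ℂ} {z : ℂ} : z ∈ MM.closure s ↔ IsAlgebraic (Algebra.adjoin ℚ s) z := by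
  rw [AlgebraicIndependent.matroid_closure_eq]
  exact Subalgebra.mem_algebraicClosure _ _

/-- algebraic subspaces -/
def AlgSub (V : Submodule ℚ ℂ) : Prop := ∀ v ∈ V, IsAlgebraic ℚ v

lemma adjoin_exp (V : Submodule ℚ ℂ) :
    Subalgebra.toSubmodule (Algebra.adjoin ℚ (Complex.exp '' (V : Set ℂ))) =
      Submodule.span ℚ (Complex.exp '' (V : Set ℂ)) := by
  rw [Algebra.adjoin_eq_span]
  congr 1
  apply le_antisymm
  · intro z hz
    induction hz using Submonoid.closure_induction with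
    | mem x hx => exact hx
    | one => exact ⟨0, V.zero_mem, Complex.exp_zero⟩
    | mul x y _ _ hx hy =>
      obtain ⟨v, hv, rfl⟩ := hx
      obtain ⟨w, hw, rfl⟩ := hy
      exact ⟨v + w, V.add_mem hv hw, Complex.exp_add v w⟩
  · exact Submonoid.subset_closure

/-- Lindemann-Weierstrass for spaces of exponents -/
theorem mem_of_exp_mem {V : Submodule ℚ ℂ} (hV : AlgSub V) {α : ℂ} (hα : IsAlgebraic ℚ α)
    (h : Complex.exp α ∈ AA V) : α ∈ V := by
  classical
  by_contra hαV
  unfold AA at h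
  rw [mem_cl] at h
  obtain ⟨p, hp0, hp⟩ := h
  have h1 : ∀ j : ℕ, ∃ f : ℂ →₀ ℚ, f ∈ Finsupp.supported ℚ ℚ (V : Set ℂ) ∧
      Finsupp.linearCombination ℚ Complex.exp f = ((p.coeff j : Algebra.adjoin ℚ (Complex.exp '' (V : Set ℂ))) : ℂ) := by
    intro j
    have h2 : ((p.coeff j : Algebra.adjoin ℚ (Complex.exp '' (V : Set ℂ))) : ℂ) ∈
        Submodule.span ℚ (Complex.exp '' (V : Set ℂ)) := by
      rw [← adjoin_exp]
      exact (p.coeff j).2
    rw [Finsupp.mem_span_image_iff_linearCombination] at h2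
    exact h2
  choose f hfV hf using h1
  obtain ⟨n, hn⟩ : ∃ n, n = p.natDegree := ⟨_, rfl⟩
  obtain ⟨T, hT⟩ : ∃ T : Finset ℂ, T = (range (n + 1)).biUnion fun j => (f j).support := ⟨_, rfl⟩
  have hTV : ∀ v ∈ T, v ∈ V := by
    intro v hv
    rw [hT, Finset.mem_biUnion] at hv
    obtain ⟨j, _, hj⟩ := hv
    exact (Finsupp.mem_supported ℚ (f j)).1 (hfV j) hj
  have h3 : ∑ i ∈ range (n + 1) ×ˢ T, ((f i.1 i.2 : ℚ) : ℂ) * Complex.exp (i.1 * α + i.2) = 0 := by
    rw [Finset.sum_product]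
    rw [aeval_eq_sum_range, ← hn] at hp
    rw [← hp]
    refine Finset.sum_congr rfl fun j hj => ?_
    have h4 : (p.coeff j) • (Complex.exp α) ^ j =
        ((p.coeff j : Algebra.adjoin ℚ (Complex.exp '' (V : Set ℂ))) : ℂ) * (Complex.exp α) ^ j := rfl
    rw [h4, ← hf j, Finsupp.linearCombination_apply, Finsupp.sum, Finset.sum_mul]
    symm
    have h5 : (f j).support ⊆ T := by
      rw [hT]
      exact Finset.subset_biUnion_of_mem (fun j => (f j).support) hj
    refine (Finset.sum_subset h5 fun v _ hv => ?_).trans (Finset.sum_congr rfl fun v _ => ?_)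
    · rw [Finsupp.notMem_support_iff.1 hv, zero_smul, zero_mul]
    · rw [Complex.exp_add, ← Complex.exp_nat_mul, Algebra.smul_def]
      simp only [eq_ratCast]
      ring
  have hL := Pool.Agent.H340R2.LW.lindemann_weierstrass (range (n + 1) ×ˢ T) (fun i : ℕ × ℂ => i.1 * α + i.2)
    (fun i => ((f i.1 i.2 : ℚ) : ℂ)) ?_ ?_ ?_ h3
  · apply hp0
    ext j
    rw [coeff_zero]
    by_cases hj : j ∈ range (n + 1)
    · have h6 : f j = 0 := by
        ext v
        rw [Finsupp.zero_apply]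
        by_cases hv : v ∈ T
        · have := hL (j, v) (Finset.mem_product.2 ⟨hj, hv⟩)
          simpa using this
        · by_contra h7
          apply hv
          rw [hT, Finset.mem_biUnion]
          exact ⟨j, hj, Finsupp.mem_support_iff.2 h7⟩
      rw [← hf j, h6, map_zero]
      rfl
    · rw [coeff_eq_zero_of_natDegree_lt]
      rw [Finset.mem_range] at hj
      omega
  · rintro ⟨j, v⟩ hi
    rw [Finset.mem_product] at hi
    exact ((isAlgebraic_natCast j).mul hα).add (hV v (hTV v hi.2))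
  · rintro ⟨j, v⟩ _
    exact isAlgebraic_algebraMap (R := ℚ) (A := ℂ) (f j v)
  · rintro ⟨j, v⟩ hi ⟨k, w⟩ hi' hjk
    rw [Finset.mem_coe, Finset.mem_product] at hi hi'
    simp only at hjk hi hi'
    have hv := hTV v hi.2
    have hw := hTV w hi'.2
    by_cases hjk' : j = k
    · subst hjk'
      have : v = w := by simpa using hjk
      rw [this]
    · exfalso
      apply hαV
      have h8 : ((j : ℂ) - k) ≠ 0 := by
        rw [sub_ne_zero]
        exact_mod_cast hjk'
      have h9 : α = (((j : ℚ) - k)⁻¹ : ℚ) • (w - v) := by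
        rw [Algebra.smul_def]
        simp only [eq_ratCast]
        push_cast
        field_simp
        linear_combination hjk
      rw [h9]
      exact V.smul_mem _ (V.sub_mem hw hv)

lemma AA_mono {V W : Submodule ℚ ℂ} (h : V ≤ W) : AA V ⊆ AA W :=
  MM.closure_mono (Set.image_mono h)

lemma AA_flat (V : Submodule ℚ ℂ) : MM.closure (AA V) = AA V := MM.closure_closure _

lemma exp_mem_AA {V : Submodule ℚ ℂ} {v : ℂ} (hv : v ∈ V) : Complex.exp v ∈ AA V :=
  MM.subset_closure _ (Set.subset_univ _) ⟨v, hv, rfl⟩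

/-- closed subfields -/
theorem exists_field {F : Set ℂ} (hF : MM.closure F = F) :
    ∃ K : IntermediateField ℚ ℂ, (∀ z, z ∈ K ↔ z ∈ F) ∧ ∀ z : ℂ, IsAlgebraic K z → z ∈ K := by
  have h1 : MM.IsFlat F := by
    rw [Matroid.isFlat_iff_closure_eq]
    exact hF
  rw [AlgebraicIndependent.matroid_isFlat_iff] at h1
  obtain ⟨S, hS, hS2⟩ := h1
  have hinv : ∀ x ∈ S, x⁻¹ ∈ S := by
    intro x hx
    have h2 : IsAlgebraic S x⁻¹ := by
      have : IsAlgebraic S (algebraMap S ℂ ⟨x, hx⟩) := isAlgebraic_algebraMap _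
      exact this.inv
    have := hS2 _ h2
    rw [← hS] at this
    exact this
  refine ⟨S.toIntermediateField hinv, fun z => ?_, fun z hz => ?_⟩
  · rw [← hS]
    rfl
  · have h3 : z ∈ F := hS2 z hz
    rw [← hS] at h3
    exact h3

/-- roots of polynomials with coefficients in a closed field -/
theorem root_mem {K : IntermediateField ℚ ℂ} (hK : ∀ z : ℂ, IsAlgebraic K z → z ∈ K) {q : ℂ[X]}
    (hq : q ≠ 0) (hc : ∀ j, q.coeff j ∈ K) {z : ℂ} (hz : q.eval z = 0) : z ∈ K := by
  apply hK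
  have h1 : q ∈ Polynomial.lifts (algebraMap K ℂ) := by
    rw [Polynomial.lifts_iff_coeff_lifts]
    intro n
    exact ⟨⟨q.coeff n, hc n⟩, rfl⟩
  obtain ⟨p, hp⟩ := (Polynomial.mem_lifts _).1 h1
  refine ⟨p, ?_, ?_⟩
  · rintro rfl
    apply hq
    rw [← hp, Polynomial.map_zero]
  · rw [aeval_def, ← eval_map, hp, hz]

lemma pow_root_mem {K : IntermediateField ℚ ℂ} (hK : ∀ z : ℂ, IsAlgebraic K z → z ∈ K) {z : ℂ}
    {n : ℕ} (hn : 0 < n) (h : z ^ n ∈ K) : z ∈ K := by
  refine root_mem hK (q := X ^ n - C (z ^ n)) (X_pow_sub_C_ne_zero hn _) (fun j => ?_) (by simp)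
  rw [coeff_sub, coeff_X_pow, coeff_C]
  refine K.sub_mem ?_ ?_
  · split_ifs
    · exact K.one_mem
    · exact K.zero_mem
  · split_ifs
    · exact h
    · exact K.zero_mem

/-- rational multiples of exponents -/
lemma exp_smul_mem {K : IntermediateField ℚ ℂ} (hK : ∀ z : ℂ, IsAlgebraic K z → z ∈ K) {w : ℂ}
    (q : ℚ) (h : Complex.exp w ∈ K) : Complex.exp (q * w) ∈ K := by
  apply pow_root_mem hK q.den_pos
  rw [← Complex.exp_nat_mul]
  have h1 : ((q.den : ℕ) : ℂ) * ((q : ℂ) * w) = (q.num : ℤ) * w := by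
    have h2 : ((q.den : ℕ) : ℂ) * (q : ℂ) = (q.num : ℤ) := by
      have := Rat.den_mul_eq_num q
      exact_mod_cast this
    rw [← mul_assoc, h2]
  rw [h1, Complex.exp_int_mul]
  exact zpow_mem h _

lemma AA_field (V : Submodule ℚ ℂ) :
    ∃ K : IntermediateField ℚ ℂ, (∀ z, z ∈ K ↔ z ∈ AA V) ∧ ∀ z : ℂ, IsAlgebraic K z → z ∈ K :=
  exists_field (AA_flat V)

/-- the space `V + ℚ b` -/
lemma AA_sup_subset (V : Submodule ℚ ℂ) (b : ℂ) :
    AA (V ⊔ Submodule.span ℚ {b}) ⊆
      MM.closure (insert (Complex.exp b) (Complex.exp '' (V : Set ℂ))) := by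
  obtain ⟨K, hK1, hK2⟩ := exists_field (F := MM.closure (insert (Complex.exp b)
    (Complex.exp '' (V : Set ℂ)))) (MM.closure_closure _)
  have h1 : Complex.exp '' ((V ⊔ Submodule.span ℚ {b} : Submodule ℚ ℂ) : Set ℂ) ⊆
      MM.closure (insert (Complex.exp b) (Complex.exp '' (V : Set ℂ))) := by
    rintro z ⟨w, hw, rfl⟩
    rw [SetLike.mem_coe, Submodule.mem_sup] at hw
    obtain ⟨v, hv, u, hu, rfl⟩ := hw
    rw [Submodule.mem_span_singleton] at hu
    obtain ⟨q, rfl⟩ := hu
    rw [← hK1, Complex.exp_add]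
    refine K.mul_mem ?_ ?_
    · rw [hK1]
      exact MM.subset_closure _ (Set.subset_univ _) (Set.mem_insert_of_mem _ ⟨v, hv, rfl⟩)
    · rw [Algebra.smul_def]
      refine exp_smul_mem hK2 q ?_
      rw [hK1]
      exact MM.subset_closure _ (Set.subset_univ _) (Set.mem_insert _ _)
  unfold AA
  rw [← MM.closure_closure (insert (Complex.exp b) (Complex.exp '' (V : Set ℂ)))]
  exact MM.closure_mono h1

/-- exchange -/
lemma exchange {V : Submodule ℚ ℂ} {b z : ℂ} (h : z ∈ AA (V ⊔ Submodule.span ℚ {b}))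
    (hz : z ∉ AA V) : Complex.exp b ∈ MM.closure (insert z (Complex.exp '' (V : Set ℂ))) :=
  (Matroid.closure_exchange (M := MM) ⟨AA_sup_subset V b h, hz⟩).1

lemma AlgSub.sup {V W : Submodule ℚ ℂ} (hV : AlgSub V) (hW : AlgSub W) : AlgSub (V ⊔ W) := by
  intro z hz
  obtain ⟨v, hv, w, hw, rfl⟩ := Submodule.mem_sup.1 hz
  exact (hV v hv).add (hW w hw)

lemma algSub_span {F : Set ℂ} (hF : ∀ z ∈ F, IsAlgebraic ℚ z) : AlgSub (Submodule.span ℚ F) := by
  intro z hz
  induction hz using Submodule.span_induction with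
  | mem x hx => exact hF x hx
  | zero => exact isAlgebraic_zero
  | add x y _ _ hx hy => exact hx.add hy
  | smul a x _ hx =>
    rw [Algebra.smul_def]
    exact (isAlgebraic_algebraMap a).mul hx

/-- `A(V) ∩ A(W) = A(V ∩ W)` -/
theorem inter {V W : Submodule ℚ ℂ} (hV : AlgSub V) (hW : AlgSub W) : AA V ∩ AA W = AA (V ⊓ W) := by
  classical
  apply Set.Subset.antisymm
  · rintro z ⟨hz1, hz2⟩
    obtain ⟨U, hU⟩ : ∃ U, U = V ⊓ W := ⟨_, rfl⟩
    rw [← hU]
    have key : ∀ F : Finset ℂ, (∀ v ∈ F, v ∈ V) → z ∈ AA (U ⊔ Submodule.span ℚ (F : Set ℂ)) →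
        z ∈ AA U := by
      intro F
      induction F using Finset.induction_on with
      | empty =>
        intro _ h
        simpa using h
      | insert b F _ ih =>
        intro hFV h
        have hFV' : ∀ v ∈ F, v ∈ V := fun v hv => hFV v (Finset.mem_insert_of_mem hv)
        apply ih hFV'
        by_contra h1
        have h2 : U ⊔ Submodule.span ℚ ((insert b F : Finset ℂ) : Set ℂ) =
            (U ⊔ Submodule.span ℚ (F : Set ℂ)) ⊔ Submodule.span ℚ {b} := by
          rw [Finset.coe_insert, Submodule.span_insert, sup_assoc, sup_comm (Submodule.span ℚ {b})]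
        rw [h2] at h
        have h3 := exchange h h1
        have hFs : Submodule.span ℚ (F : Set ℂ) ≤ V := Submodule.span_le.2 fun v hv => hFV' v hv
        have h4 : Complex.exp b ∈ AA (W ⊔ Submodule.span ℚ (F : Set ℂ)) := by
          have h5 : insert z (Complex.exp '' ((U ⊔ Submodule.span ℚ (F : Set ℂ) : Submodule ℚ ℂ) : Set ℂ))
              ⊆ AA (W ⊔ Submodule.span ℚ (F : Set ℂ)) := by
            rw [Set.insert_subset_iff]
            refine ⟨AA_mono le_sup_left hz2, ?_⟩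
            rintro _ ⟨w, hw, rfl⟩
            apply exp_mem_AA
            have hUW : U ≤ W := by
              rw [hU]
              exact inf_le_right
            exact (sup_le_sup_right hUW _) hw
          have h6 := MM.closure_mono h5 h3
          rwa [AA_flat] at h6
        have hb : b ∈ V := hFV b (Finset.mem_insert_self _ _)
        have h7 := mem_of_exp_mem (hW.sup fun v hv => hV v (hFs hv)) (hV b hb) h4
        obtain ⟨w, hw, f, hf, hwf⟩ := Submodule.mem_sup.1 h7
        have h8 : w ∈ U := by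
          rw [hU]
          refine ⟨?_, hw⟩
          have : w = b - f := by rw [← hwf]; ring
          rw [SetLike.mem_coe, this]
          exact V.sub_mem hb (hFs hf)
        apply h1
        have h9 : b ∈ U ⊔ Submodule.span ℚ (F : Set ℂ) := by
          rw [← hwf]
          exact Submodule.add_mem_sup h8 hf
        have h10 : (U ⊔ Submodule.span ℚ (F : Set ℂ)) ⊔ Submodule.span ℚ {b} =
            U ⊔ Submodule.span ℚ (F : Set ℂ) := by
          rw [sup_eq_left, Submodule.span_le, Set.singleton_subset_iff]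
          exact h9
        rwa [h10] at h
    obtain ⟨I, hI, hIf, _, hzI⟩ := Matroid.exists_mem_finite_closure_of_mem_closure hz1
    obtain ⟨I', rfl⟩ := hIf.exists_finset_coe
    obtain ⟨G, hG1, hG2⟩ := Finset.subset_set_image_iff.1 hI
    replace hG2 : Complex.exp '' (G : Set ℂ) = I' := by rw [← hG2, Finset.coe_image]
    refine key G (fun v hv => hG1 hv) ?_
    refine MM.closure_mono ?_ hzI
    rw [← hG2]
    exact Set.image_mono fun v hv => (le_sup_right : _ ≤ U ⊔ Submodule.span ℚ (G : Set ℂ))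
      (Submodule.subset_span hv)
  · exact Set.subset_inter (AA_mono inf_le_left) (AA_mono inf_le_right)

/-- finite dimensional witness -/
lemma exists_fin {V : Submodule ℚ ℂ} {z : ℂ} (hz : z ∈ AA V) :
    ∃ W : Submodule ℚ ℂ, W ≤ V ∧ FiniteDimensional ℚ W ∧ z ∈ AA W := by
  classical
  obtain ⟨I, hI, hIf, _, hzI⟩ := Matroid.exists_mem_finite_closure_of_mem_closure hz
  obtain ⟨I', rfl⟩ := hIf.exists_finset_coe
  obtain ⟨G, hG1, hG2⟩ := Finset.subset_set_image_iff.1 hI
  replace hG2 : Complex.exp '' (G : Set ℂ) = I' := by rw [← hG2, Finset.coe_image]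
  refine ⟨Submodule.span ℚ (G : Set ℂ), Submodule.span_le.2 hG1,
    FiniteDimensional.span_finset ℚ G, ?_⟩
  refine MM.closure_mono ?_ hzI
  rw [← hG2]
  exact Set.image_mono Submodule.subset_span

/-- the support of a number -/
theorem support {V : Submodule ℚ ℂ} (hV : AlgSub V) {z : ℂ} (hz : z ∈ AA V) :
    ∃ V₀ : Submodule ℚ ℂ, AlgSub V₀ ∧ FiniteDimensional ℚ V₀ ∧
      ∀ W : Submodule ℚ ℂ, AlgSub W → (z ∈ AA W ↔ V₀ ≤ W) := by
  classical
  have h1 : ∃ n : ℕ, ∃ W : Submodule ℚ ℂ, AlgSub W ∧ FiniteDimensional ℚ W ∧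
      Module.finrank ℚ W = n ∧ z ∈ AA W := by
    obtain ⟨W, hW, hf, hz'⟩ := exists_fin hz
    exact ⟨_, W, fun v hv => hV v (hW hv), hf, rfl, hz'⟩
  obtain ⟨V₀, h2, h3, h4, h5⟩ := Nat.find_spec h1
  refine ⟨V₀, h2, h3, fun W hW => ⟨fun hzW => ?_, fun h => AA_mono h h5⟩⟩
  have h6 : z ∈ AA (V₀ ⊓ W) := by
    rw [← inter h2 hW]
    exact ⟨h5, hzW⟩
  have h7 : FiniteDimensional ℚ (V₀ ⊓ W : Submodule ℚ ℂ) :=
    Submodule.finiteDimensional_of_le (inf_le_left : V₀ ⊓ W ≤ V₀)
  have h8 := Nat.find_min' h1 ⟨V₀ ⊓ W, fun v hv => h2 v hv.1, h7, rfl, h6⟩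
  rw [← h4] at h8
  have h9 : V₀ ⊓ W = V₀ := Submodule.eq_of_le_of_finrank_le inf_le_left h8
  exact inf_eq_left.1 h9

lemma mem_AA_bot {z : ℂ} (h : IsAlgebraic ℚ z) : z ∈ AA ⊥ := by
  unfold AA
  rw [mem_cl]
  exact h.extendScalars (FaithfulSMul.algebraMap_injective _ _)

end Pool.Agent.D0H21.PA
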