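import Pool.Agent.D0H21.PA.Tau
import Pool.Agent.D0H21.PA.LWS

/-!
# Relations of bounded degree between a number and exponentials of algebraic numbers
-/

set_option autoImplicit false

namespace Pool.Agent.D0H21.PA

open Polynomial Finset
open Pool.Agent.D0H21.PE

/-- a relation puts `z` into every closed field containing the coefficients and `x` -/
lemma mem_of_rel {K L : IntermediateField ℚ ℂ} (hK : ∀ z : ℂ, IsAlgebraic K z → z ∈ K)
    (hL : ∀ z : ℂ, IsAlgebraic L z → z ∈ L) (hKL : K ≤ L) {x z : ℂ} (hx : x ∈ L) (hxK : x ∉ K)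
    {D d : ℕ} (h : Rel K x z D d) : z ∈ L := by
  obtain ⟨c, ⟨i₀, hi₀, j₀, hj₀, hc⟩, h0⟩ := h
  refine root_mem hL (q := ∑ j ∈ range (d + 1), C (∑ i ∈ range (D + 1), (c i j : ℂ) * x ^ i) * X ^ j)
    ?_ ?_ ?_
  · intro hq
    apply hxK
    have h1 := congrArg (fun q => coeff q j₀) hq
    simp only [finsetSum_coeff, coeff_C_mul_X_pow, coeff_zero] at h1
    rw [Finset.sum_ite_eq (range (d + 1)) j₀, if_pos (Finset.mem_range.2 (by omega))] at h1
    refine root_mem hK (q := ∑ i ∈ range (D + 1), C (c i j₀ : ℂ) * X ^ i) ?_ ?_ ?_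
    · intro h2
      have h3 := congrArg (fun q => coeff q i₀) h2
      simp only [finsetSum_coeff, coeff_C_mul_X_pow, coeff_zero] at h3
      rw [Finset.sum_ite_eq (range (D + 1)) i₀, if_pos (Finset.mem_range.2 (by omega))] at h3
      apply hc
      exact_mod_cast h3
    · intro i
      simp only [finsetSum_coeff, coeff_C_mul_X_pow]
      rw [Finset.sum_ite_eq (range (D + 1)) i]
      split_ifs
      · exact (c i j₀).2
      · exact K.zero_mem
    · rw [eval_finsetSum]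
      simpa using h1
  · intro j
    simp only [finsetSum_coeff, coeff_C_mul_X_pow]
    rw [Finset.sum_ite_eq (range (d + 1)) j]
    split_ifs
    · exact sum_mem fun i _ => L.mul_mem (hKL (c i j).2) (L.pow_mem hx i)
    · exact L.zero_mem
  · rw [eval_finsetSum, ← h0, Finset.sum_comm]
    refine Finset.sum_congr rfl fun j _ => ?_
    rw [eval_mul, eval_pow, eval_X, eval_C, Finset.sum_mul]
    refine Finset.sum_congr rfl fun i _ => ?_
    rfl

/-- multiplying `z` by a constant -/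
lemma rel_scale {K : IntermediateField ℚ ℂ} {x z : ℂ} {D d : ℕ} {u : ℂ} (hu : u ∈ K) (hu0 : u ≠ 0)
    (h : Rel K x (u * z) D d) : Rel K x z D d := by
  obtain ⟨c, ⟨i₀, hi₀, j₀, hj₀, hc⟩, h0⟩ := h
  refine ⟨fun i j => c i j * (⟨u, hu⟩ : K) ^ j, ⟨i₀, hi₀, j₀, hj₀, ?_⟩, ?_⟩
  · refine mul_ne_zero hc (pow_ne_zero _ ?_)
    intro h
    exact hu0 (congrArg Subtype.val h)
  · rw [← h0]
    refine Finset.sum_congr rfl fun i _ => Finset.sum_congr rfl fun j _ => ?_
    rw [map_mul, map_pow]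
    have : algebraMap K ℂ ⟨u, hu⟩ = u := rfl
    rw [this]
    ring

/-- inverting `x` -/
lemma rel_inv {K : IntermediateField ℚ ℂ} {x z : ℂ} {D d : ℕ} (hx : x ≠ 0)
    (h : Rel K x z D d) : Rel K x⁻¹ z D d := by
  obtain ⟨c, ⟨i₀, hi₀, j₀, hj₀, hc⟩, h0⟩ := h
  refine ⟨fun i j => c (D - i) j, ⟨D - i₀, Nat.sub_le _ _, j₀, hj₀, ?_⟩, ?_⟩
  · have : D - (D - i₀) = i₀ := by omega
    simp only [this]
    exact hc
  · rw [← Finset.sum_range_reflect]
    have h1 : ∑ i ∈ range (D + 1), ∑ j ∈ range (d + 1),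
        algebraMap K ℂ (c (D - (D + 1 - 1 - i)) j) * x⁻¹ ^ (D + 1 - 1 - i) * z ^ j =
        x⁻¹ ^ D * ∑ i ∈ range (D + 1), ∑ j ∈ range (d + 1), algebraMap K ℂ (c i j) * x ^ i * z ^ j := by
      rw [Finset.mul_sum]
      refine Finset.sum_congr rfl fun i hi => ?_
      rw [Finset.mul_sum]
      refine Finset.sum_congr rfl fun j _ => ?_
      rw [Finset.mem_range] at hi
      have e1 : D - (D + 1 - 1 - i) = i := by omega
      rw [e1]
      have e2 : x⁻¹ ^ D = x⁻¹ ^ (D + 1 - 1 - i) * x⁻¹ ^ i := by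
        rw [← pow_add]
        congr 1
        omega
      rw [e2]
      have e3 : x⁻¹ ^ i * x ^ i = 1 := by
        rw [← mul_pow, inv_mul_cancel₀ hx, one_pow]
      linear_combination (-(algebraMap K ℂ (c i j)) * x⁻¹ ^ (D + 1 - 1 - i) * z ^ j) * e3
    rw [h1, h0, mul_zero]

lemma rel_abs_left {K : IntermediateField ℚ ℂ} {w z : ℂ} {D d : ℕ} (s : ℚ)
    (h : Rel K (Complex.exp (s * w)) z D d) : Rel K (Complex.exp ((|s| : ℚ) * w)) z D d := by
  rcases abs_choice s with h1 | h1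
  · rwa [h1]
  · rw [h1]
    push_cast
    rw [neg_mul, Complex.exp_neg]
    exact rel_inv (Complex.exp_ne_zero _) h

lemma rel_abs_right {K : IntermediateField ℚ ℂ} {w x : ℂ} {D d : ℕ} (s : ℚ)
    (h : Rel K x (Complex.exp (s * w)) D d) : Rel K x (Complex.exp ((|s| : ℚ) * w)) D d :=
  (rel_abs_left s h.symm).symm

/-- rational exponents -/
lemma tau_rat {K : IntermediateField ℚ ℂ} (hK : ∀ z : ℂ, IsAlgebraic K z → z ∈ K) {w b : ℂ}
    (hw : Complex.exp w ∉ K) (hb : Complex.exp b ∉ K) {D₀ d₀ : ℕ}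
    (h₀ : Rel K (Complex.exp w) (Complex.exp b) D₀ d₀) (s q : ℚ) (hs : 0 < s) (hq : 0 < q)
    {D d : ℕ} (h : Rel K (Complex.exp (s * w)) (Complex.exp (q * b)) D d) :
    ∃ a c : ℕ, 1 ≤ a ∧ a ≤ D ∧ 1 ≤ c ∧ c ≤ d ∧
      q / s * tau K (Complex.exp w) (Complex.exp b) = a / c := by
  obtain ⟨N, hN⟩ : ∃ N : ℕ, N = s.den * q.den := ⟨_, rfl⟩
  have hN0 : 0 < N := by rw [hN]; exact Nat.mul_pos s.den_pos q.den_pos
  have hN1 : (N : ℚ) ≠ 0 := by exact_mod_cast hN0.ne'
  have hN2 : (N : ℂ) ≠ 0 := by exact_mod_cast hN0.ne'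
  obtain ⟨n, hn⟩ : ∃ n : ℕ, (n : ℚ) = N * s := by
    refine ⟨s.num.toNat * q.den, ?_⟩
    have h1 : ((s.num.toNat : ℤ) : ℚ) = s.num := by
      rw [Int.toNat_of_nonneg (Rat.num_nonneg.2 hs.le)]
    have h2 : (s.den : ℚ) * s = s.num := Rat.den_mul_eq_num s
    rw [hN]
    push_cast at h1 ⊢
    rw [h1, ← h2]
    ring
  obtain ⟨m, hm⟩ : ∃ m : ℕ, (m : ℚ) = N * q := by
    refine ⟨q.num.toNat * s.den, ?_⟩
    have h1 : ((q.num.toNat : ℤ) : ℚ) = q.num := by
      rw [Int.toNat_of_nonneg (Rat.num_nonneg.2 hq.le)]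
    have h2 : (q.den : ℚ) * q = q.num := Rat.den_mul_eq_num q
    rw [hN]
    push_cast at h1 ⊢
    rw [h1, ← h2]
    ring
  have hn0 : 0 < n := by
    have : (0 : ℚ) < n := by rw [hn]; positivity
    exact_mod_cast this
  have hm0 : 0 < m := by
    have : (0 : ℚ) < m := by rw [hm]; positivity
    exact_mod_cast this
  obtain ⟨x, hx⟩ : ∃ x, x = Complex.exp (w / N) := ⟨_, rfl⟩
  obtain ⟨y, hy⟩ : ∃ y, y = Complex.exp (b / N) := ⟨_, rfl⟩
  have hxN : x ^ N = Complex.exp w := by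
    rw [hx, ← Complex.exp_nat_mul]
    congr 1
    field_simp
  have hyN : y ^ N = Complex.exp b := by
    rw [hy, ← Complex.exp_nat_mul]
    congr 1
    field_simp
  have hxn : x ^ n = Complex.exp (s * w) := by
    rw [hx, ← Complex.exp_nat_mul]
    congr 1
    have : (n : ℂ) = N * s := by exact_mod_cast congrArg (fun r : ℚ => (r : ℂ)) hn
    rw [this]
    field_simp
  have hym : y ^ m = Complex.exp (q * b) := by
    rw [hy, ← Complex.exp_nat_mul]
    congr 1
    have : (m : ℂ) = N * q := by exact_mod_cast congrArg (fun r : ℚ => (r : ℂ)) hm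
    rw [this]
    field_simp
  have htr : ∀ z : ℂ, z ∉ K → Transcendental K z := fun z hz h => hz (hK z h)
  have hx1 : Transcendental K x := by
    apply htr
    intro h1
    apply hw
    rw [← hxN]
    exact pow_mem h1 _
  have hy1 : Transcendental K y := by
    apply htr
    intro h1
    apply hb
    rw [← hyN]
    exact pow_mem h1 _
  rw [← hxN, ← hyN] at h₀
  rw [← hxn, ← hym] at h
  obtain ⟨h2, h3⟩ := tau_pow hx1 hy1 hN0 hN0 h₀
  obtain ⟨_, h4⟩ := tau_pow hx1 hy1 hm0 hn0 h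
  obtain ⟨a, c, ha, haD, hc, hcd, h5⟩ := tau_mem (hx1.pow hn0) (hy1.pow hm0) h
  refine ⟨a, c, ha, haD, hc, hcd, ?_⟩
  rw [← h5, h4, ← hxN, ← hyN, h3, div_self hN1, one_mul, hm, hn]
  have hs0 : s ≠ 0 := hs.ne'
  field_simp

/-- the exceptional exponents are `± f α₀ + V` -/
theorem exceptional {V : Submodule ℚ ℂ} (hV : AlgSub V) {K : IntermediateField ℚ ℂ}
    (hKV : ∀ z, z ∈ K ↔ z ∈ AA V) (hK : ∀ z : ℂ, IsAlgebraic K z → z ∈ K) (w : ℂ)
    (hw : Complex.exp w ∉ AA V) :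
    ∃ α₀ : ℂ, IsAlgebraic ℚ α₀ ∧ ∀ (s : ℚ) (α : ℂ), s ≠ 0 → IsAlgebraic ℚ α → α ∉ V → ∀ D d : ℕ,
      Rel K (Complex.exp (s * w)) (Complex.exp α) D d →
      ∃ a c : ℕ, 1 ≤ a ∧ a ≤ D ∧ 1 ≤ c ∧ c ≤ d ∧
        (α - s * (((a : ℚ) / c : ℚ) * α₀) ∈ V ∨ α + s * (((a : ℚ) / c : ℚ) * α₀) ∈ V) := by
  have hsw : ∀ s : ℚ, s ≠ 0 → Complex.exp (s * w) ∉ K := by
    intro s hs h
    apply hw
    rw [← hKV]
    have h1 := exp_smul_mem hK s⁻¹ h
    have h2 : ((s⁻¹ : ℚ) : ℂ) * (s * w) = w := by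
      have hs' : (s : ℂ) ≠ 0 := by exact_mod_cast hs
      push_cast
      field_simp
    rwa [h2] at h1
  have hexp : ∀ α : ℂ, IsAlgebraic ℚ α → α ∉ V → Complex.exp α ∉ K := fun α hα hαV h =>
    hαV (mem_of_exp_mem hV hα ((hKV _).1 h))
  by_cases hex : ∃ (s : ℚ) (α : ℂ), s ≠ 0 ∧ IsAlgebraic ℚ α ∧ α ∉ V ∧ ∃ D d : ℕ,
      Rel K (Complex.exp (s * w)) (Complex.exp α) D d
  · obtain ⟨s₁, α₁, hs₁, hα₁, hα₁V, D₁, d₁, h₁⟩ := hex
    obtain ⟨w₁, hw₁⟩ : ∃ w₁, w₁ = ((|s₁| : ℚ) : ℂ) * w := ⟨_, rfl⟩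
    have h₁' := rel_abs_left s₁ h₁
    rw [← hw₁] at h₁'
    have hw₁K : Complex.exp w₁ ∉ K := by
      rw [hw₁]
      exact hsw _ (abs_ne_zero.2 hs₁)
    have hα₁K : Complex.exp α₁ ∉ K := hexp α₁ hα₁ hα₁V
    obtain ⟨h, hh⟩ : ∃ h, h = tau K (Complex.exp w₁) (Complex.exp α₁) := ⟨_, rfl⟩
    have htr : ∀ z : ℂ, z ∉ K → Transcendental K z := fun z hz h => hz (hK z h)
    have hpos : 0 < h := by
      have := (tau_pow (htr _ hw₁K) (htr _ hα₁K) one_pos one_pos (D := D₁) (d := d₁)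
        (by rw [pow_one, pow_one]; exact h₁')).1
      rwa [hh]
    -- the field generated by `e ^ w₁`
    obtain ⟨L, hL1, hL2⟩ := exists_field (F := MM.closure (insert (Complex.exp w)
      (Complex.exp '' (V : Set ℂ)))) (MM.closure_closure _)
    have hKL : K ≤ L := by
      intro z hz
      rw [hL1]
      exact MM.closure_mono (Set.subset_insert _ _) ((hKV z).1 hz)
    have hwL : Complex.exp w ∈ L := by
      rw [hL1]
      exact MM.subset_closure _ (Set.subset_univ _) (Set.mem_insert _ _)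
    have hmemL : ∀ (s : ℚ) (α : ℂ), s ≠ 0 → ∀ D d : ℕ,
        Rel K (Complex.exp (s * w)) (Complex.exp α) D d → Complex.exp α ∈ L := by
      intro s α hs D d hr
      exact mem_of_rel hK hL2 hKL (exp_smul_mem hL2 s hwL) (hsw s hs) hr
    -- exchange
    have hwα : Complex.exp w ∈ AA (V ⊔ Submodule.span ℚ {α₁}) := by
      have h2 : Complex.exp α₁ ∈ MM.closure (insert (Complex.exp w) (Complex.exp '' (V : Set ℂ))) \
          MM.closure (Complex.exp '' (V : Set ℂ)) :=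
        ⟨(hL1 _).1 (hmemL s₁ α₁ hs₁ D₁ d₁ h₁), fun h3 => hα₁K ((hKV _).2 h3)⟩
      have h3 := (Matroid.closure_exchange (M := MM) h2).1
      have h4 : insert (Complex.exp α₁) (Complex.exp '' (V : Set ℂ)) ⊆
          AA (V ⊔ Submodule.span ℚ {α₁}) := by
        rw [Set.insert_subset_iff]
        refine ⟨exp_mem_AA (Submodule.mem_sup_right (Submodule.mem_span_singleton_self _)), ?_⟩
        rintro _ ⟨v, hv, rfl⟩
        exact exp_mem_AA (Submodule.mem_sup_left hv)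
      exact (AA_flat _).subset (MM.closure_mono h4 h3)
    have hLsub : ∀ z ∈ L, z ∈ AA (V ⊔ Submodule.span ℚ {α₁}) := by
      intro z hz
      rw [hL1] at hz
      have h4 : insert (Complex.exp w) (Complex.exp '' (V : Set ℂ)) ⊆
          AA (V ⊔ Submodule.span ℚ {α₁}) := by
        rw [Set.insert_subset_iff]
        refine ⟨hwα, ?_⟩
        rintro _ ⟨v, hv, rfl⟩
        exact exp_mem_AA (Submodule.mem_sup_left hv)
      exact (AA_flat _).subset (MM.closure_mono h4 hz)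
    have hsup : AlgSub (V ⊔ Submodule.span ℚ {α₁}) :=
      hV.sup (algSub_span fun z hz => by rw [Set.mem_singleton_iff.1 hz]; exact hα₁)
    obtain ⟨α₀, hα₀⟩ : ∃ α₀, α₀ = ((1 / (|s₁| * h) : ℚ) : ℂ) * α₁ := ⟨_, rfl⟩
    refine ⟨α₀, ?_, ?_⟩
    · rw [hα₀]
      exact (isAlgebraic_algebraMap (R := ℚ) (A := ℂ) _).mul hα₁
    · intro s α hs hα hαV D d hr
      have h5 := mem_of_exp_mem hsup hα (hLsub _ (hmemL s α hs D d hr))
      obtain ⟨v, hv, u, hu, hvu⟩ := Submodule.mem_sup.1 h5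
      obtain ⟨q, rfl⟩ := Submodule.mem_span_singleton.1 hu
      have hq : q ≠ 0 := by
        rintro rfl
        apply hαV
        rw [← hvu, zero_smul, add_zero]
        exact hv
      have hqsmul : q • α₁ = (q : ℂ) * α₁ := by
        rw [Algebra.smul_def]
        simp
      rw [hqsmul] at hvu
      have h6 : Rel K (Complex.exp (s * w)) (Complex.exp (q * α₁)) D d := by
        refine rel_scale (u := Complex.exp v) ((hKV _).2 (exp_mem_AA hv)) (Complex.exp_ne_zero _) ?_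
        rw [← Complex.exp_add, hvu]
        exact hr
      have h7 : Rel K (Complex.exp (((|s| / |s₁| : ℚ) : ℂ) * w₁)) (Complex.exp ((|q| : ℚ) * α₁)) D d := by
        have h8 : ((|s| / |s₁| : ℚ) : ℂ) * w₁ = ((|s| : ℚ) : ℂ) * w := by
          have : ((|s₁| : ℚ) : ℂ) ≠ 0 := by exact_mod_cast abs_ne_zero.2 hs₁
          rw [hw₁, Rat.cast_div]
          field_simp
        rw [h8]
        exact rel_abs_right q (rel_abs_left s h6)
      obtain ⟨a, c, ha, haD, hc, hcd, h9⟩ := tau_rat hK hw₁K hα₁K h₁' (|s| / |s₁|) |q|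
        (div_pos (abs_pos.2 hs) (abs_pos.2 hs₁)) (abs_pos.2 hq) h7
      rw [← hh] at h9
      refine ⟨a, c, ha, haD, hc, hcd, ?_⟩
      have h10 : |q| = |s| * ((a : ℚ) / c * (1 / (|s₁| * h))) := by
        rw [← h9]
        have e1 : |s| ≠ 0 := abs_ne_zero.2 hs
        have e2 : |s₁| ≠ 0 := abs_ne_zero.2 hs₁
        have e3 : h ≠ 0 := hpos.ne'
        field_simp
      have h11 : ∀ t : ℚ, t = q ∨ t = -q → (t = q → (t : ℂ) * α₁ = α - v) ∧
          (t = -q → (t : ℂ) * α₁ = v - α) := by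
        intro t _
        refine ⟨fun h => ?_, fun h => ?_⟩
        · rw [h, ← hvu]; ring
        · rw [h, ← hvu]; push_cast; ring
      have h12 : s * ((((a : ℚ) / c : ℚ) : ℂ) * α₀) =
          ((s * ((a : ℚ) / c * (1 / (|s₁| * h))) : ℚ) : ℂ) * α₁ := by
        rw [hα₀]
        push_cast
        ring
      rw [h12]
      have h13 : s * ((a : ℚ) / c * (1 / (|s₁| * h))) = q ∨
          s * ((a : ℚ) / c * (1 / (|s₁| * h))) = -q := by
        rcases abs_choice s with h14 | h14 <;> rcases abs_choice q with h15 | h15 <;>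
          rw [h14, h15] at h10
        · exact Or.inl h10.symm
        · exact Or.inr h10.symm
        · exact Or.inr (by linarith)
        · exact Or.inl (by linarith)
      rcases h13 with h14 | h14
      · left
        rw [(h11 _ (Or.inl h14)).1 h14]
        have : α - (α - v) = v := by ring
        rw [this]
        exact hv
      · right
        rw [(h11 _ (Or.inr h14)).2 h14]
        have : α + (v - α) = v := by ring
        rw [this]
        exact hv
  · refine ⟨0, isAlgebraic_zero, fun s α hs hα hαV D d hr => absurd ⟨s, α, hs, hα, hαV, D, d, hr⟩ hex⟩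

end Pool.Agent.D0H21.PA
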