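import Pool.Agent.D0H21.PA.Coef

/-!
# The Lindemann-Weierstrass theorem with coefficients polynomials in one number
-/

set_option autoImplicit false

namespace Pool.Agent.D0H21.PA

open Polynomial Finset

lemma linear_val {V : Submodule ℚ ℂ} {B : ValuationSubring ℂ} {K : IntermediateField ℚ ℂ}
    (hKV : ∀ z, z ∈ K ↔ z ∈ AA V) (hBA : ∀ z ∈ AA V, z ≠ 0 → B.valuation z = 1) (ξ : ℂ) :
    ∃ γ : B.ValueGroup, γ ≠ 0 ∧ ∀ c ∈ K, ξ ≠ c → B.valuation (ξ - c) = 1 ∨ B.valuation (ξ - c) = γ := by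
  have hle : ∀ c ∈ K, B.valuation c ≤ 1 := by
    intro c hc
    by_cases h : c = 0
    · rw [h, map_zero]; exact zero_le_one
    · rw [hBA c ((hKV c).1 hc) h]
  by_cases h1 : 1 < B.valuation ξ
  · refine ⟨B.valuation ξ, (zero_lt_one.trans h1).ne', fun c hc _ => Or.inr ?_⟩
    rw [sub_eq_add_neg]
    apply B.valuation.map_add_eq_of_lt_left
    rw [Valuation.map_neg]
    exact (hle c hc).trans_lt h1
  · push Not at h1
    have hle2 : ∀ c ∈ K, B.valuation (ξ - c) ≤ 1 := fun c hc =>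
      (B.valuation.map_sub ξ c).trans (max_le h1 (hle c hc))
    by_cases h2 : ∃ c₀ ∈ K, B.valuation (ξ - c₀) < 1
    · obtain ⟨c₀, hc₀, h3⟩ := h2
      have h4 : ∀ c ∈ K, c ≠ c₀ → B.valuation (ξ - c) = 1 := by
        intro c hc hcc
        have h5 : B.valuation (c₀ - c) = 1 :=
          hBA _ ((hKV _).1 (K.sub_mem hc₀ hc)) (sub_ne_zero.2 (Ne.symm hcc))
        have h6 : ξ - c = (ξ - c₀) + (c₀ - c) := by ring
        rw [h6, B.valuation.map_add_eq_of_lt_right (by rw [h5]; exact h3), h5]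
      by_cases h5 : ξ = c₀
      · refine ⟨1, one_ne_zero, fun c hc hne => Or.inl (h4 c hc fun h => hne (by rw [h5, h]))⟩
      · refine ⟨B.valuation (ξ - c₀), B.valuation.ne_zero_iff.2 (sub_ne_zero.2 h5),
          fun c hc _ => ?_⟩
        by_cases h6 : c = c₀
        · right; rw [h6]
        · left; exact h4 c hc h6
    · push Not at h2
      exact ⟨1, one_ne_zero, fun c hc _ => Or.inl (le_antisymm (hle2 c hc) (h2 c hc))⟩

lemma poly_val {V : Submodule ℚ ℂ} {B : ValuationSubring ℂ} (hBA : ∀ z ∈ AA V, z ≠ 0 →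
    B.valuation z = 1) (ξ : ℂ) :
    ∃ γ : B.ValueGroup, γ ≠ 0 ∧ ∀ (D : ℕ) (a : ℕ → ℂ), (∀ i, a i ∈ AA V) →
      ∑ i ∈ range (D + 1), a i * ξ ^ i ≠ 0 →
      ∃ j ≤ D, B.valuation (∑ i ∈ range (D + 1), a i * ξ ^ i) = γ ^ j := by
  obtain ⟨K, hKV, hK⟩ := AA_field V
  obtain ⟨γ, hγ0, hγ⟩ := linear_val hKV hBA ξ
  refine ⟨γ, hγ0, fun D a ha hne => ?_⟩
  obtain ⟨P, hP⟩ : ∃ P : ℂ[X], P = ∑ i ∈ range (D + 1), C (a i) * X ^ i := ⟨_, rfl⟩
  have hPξ : P.eval ξ = ∑ i ∈ range (D + 1), a i * ξ ^ i := by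
    rw [hP, eval_finsetSum]
    simp
  have hP0 : P ≠ 0 := by
    rintro h
    rw [h, eval_zero] at hPξ
    exact hne hPξ.symm
  have hcoef : ∀ j, P.coeff j ∈ K := by
    intro j
    rw [hP]
    simp only [finsetSum_coeff, coeff_C_mul_X_pow]
    rw [Finset.sum_ite_eq (range (D + 1)) j]
    split_ifs
    · exact (hKV _).2 (ha j)
    · exact K.zero_mem
  have hdeg : P.natDegree ≤ D := by
    rw [hP]
    refine natDegree_sum_le_of_forall_le _ _ fun i hi => ?_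
    rw [Finset.mem_range] at hi
    exact (natDegree_C_mul_X_pow_le _ _).trans (by omega)
  have key : ∀ m : Multiset ℂ, (∀ c ∈ m, c ∈ K ∧ ξ ≠ c) →
      ∃ j ≤ Multiset.card m, B.valuation ((m.map fun c => ξ - c).prod) = γ ^ j := by
    intro m
    induction m using Multiset.induction_on with
    | empty =>
      intro _
      exact ⟨0, le_refl _, by simp⟩
    | cons c m ih =>
      intro hm
      obtain ⟨j, hj, h1⟩ := ih fun c' hc' => hm c' (Multiset.mem_cons_of_mem hc')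
      obtain ⟨hc, hc'⟩ := hm c (Multiset.mem_cons_self _ _)
      rw [Multiset.map_cons, Multiset.prod_cons, map_mul, h1, Multiset.card_cons]
      rcases hγ c hc hc' with h2 | h2
      · exact ⟨j, by omega, by rw [h2, one_mul]⟩
      · exact ⟨j + 1, by omega, by rw [h2, pow_succ']⟩
  have hsplit : P.Splits := IsAlgClosed.splits P
  obtain ⟨j, hj, h1⟩ := key P.roots (fun c hc => by
    have hroot := (mem_roots hP0).1 hc
    refine ⟨root_mem hK hP0 hcoef hroot, ?_⟩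
    rintro rfl
    apply hne
    rw [← hPξ]
    exact hroot)
  refine ⟨j, ?_, ?_⟩
  · exact hj.trans ((card_roots' P).trans hdeg)
  · rw [← hPξ]
    have h2 : P.eval ξ = P.leadingCoeff * (P.roots.map fun c => ξ - c).prod :=
      hsplit.eval_eq_prod_roots ξ
    have h3 : B.valuation P.leadingCoeff = 1 :=
      hBA _ ((hKV _).1 (hcoef _)) (leadingCoeff_ne_zero.2 hP0)
    rw [h2, map_mul, h1, h3, one_mul]

/-- **Lindemann-Weierstrass with coefficients polynomials in one number `ξ`** -/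
theorem lw_poly {V : Submodule ℚ ℂ} (hV : AlgSub V) (ξ : ℂ) :
    ∃ α₀ : ℂ, IsAlgebraic ℚ α₀ ∧ ∀ (D : ℕ) (s : Finset ℂ), (∀ β ∈ s, IsAlgebraic ℚ β) →
      (∀ β ∈ s, ∀ γ ∈ s, β ≠ γ → β - γ ∉ V ∧ ∀ j : ℕ, 1 ≤ j → j ≤ D → β - γ - j * α₀ ∉ V) →
      ∀ a : ℂ → ℕ → ℂ, (∀ β ∈ s, ∀ i, a β i ∈ AA V) →
        ∑ β ∈ s, (∑ i ∈ range (D + 1), a β i * ξ ^ i) * Complex.exp β = 0 →
        ∀ β ∈ s, ∑ i ∈ range (D + 1), a β i * ξ ^ i = 0 := by
  classical
  obtain ⟨B, hBA, hB⟩ := exists_val hV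
  obtain ⟨γ, hγ0, hγ⟩ := poly_val hBA ξ
  obtain ⟨α₀, hα₀, hα⟩ : ∃ α₀ : ℂ, IsAlgebraic ℚ α₀ ∧ ∀ (n : ℕ) (α : ℂ), 1 ≤ n →
      IsAlgebraic ℚ α → B.valuation (Complex.exp α) = γ ^ n → α - n * α₀ ∈ V := by
    by_cases hex : ∃ (n : ℕ) (α : ℂ), 1 ≤ n ∧ IsAlgebraic ℚ α ∧ B.valuation (Complex.exp α) = γ ^ n
    · obtain ⟨n₁, α₁, hn₁, hα₁, hv₁⟩ := hex
      have hn0 : (n₁ : ℂ) ≠ 0 := by
        have : n₁ ≠ 0 := by omega
        exact_mod_cast this
      obtain ⟨α₀, hα₀⟩ : ∃ α₀ : ℂ, α₀ = ((n₁ : ℂ))⁻¹ * α₁ := ⟨_, rfl⟩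
      have hα₀alg : IsAlgebraic ℚ α₀ := by
        rw [hα₀]
        exact (isAlgebraic_natCast n₁).inv.mul hα₁
      have hv₀ : B.valuation (Complex.exp α₀) = γ := by
        have h1 : B.valuation (Complex.exp α₀) ^ n₁ = γ ^ n₁ := by
          rw [← map_pow, ← Complex.exp_nat_mul, hα₀, mul_inv_cancel_left₀ hn0, hv₁]
        exact (pow_left_inj₀ zero_le zero_le (by omega)).1 h1
      refine ⟨α₀, hα₀alg, fun n α hn hα hv => ?_⟩
      apply exp_val hB hα ((isAlgebraic_natCast n).mul hα₀alg)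
      rw [hv, Complex.exp_nat_mul, map_pow, hv₀]
    · refine ⟨0, isAlgebraic_zero, fun n α hn hα hv => absurd ⟨n, α, hn, hα, hv⟩ hex⟩
  refine ⟨α₀, hα₀, fun D s hs hT a ha h0 => ?_⟩
  refine coincide (B := B) s (fun β => ∑ i ∈ range (D + 1), a β i * ξ ^ i) ?_ h0
  intro β hβ δ hδ hβδ h1 h2 h3
  obtain ⟨j, hj, hvj⟩ := hγ D (a β) (ha β hβ) h1
  obtain ⟨k, hk, hvk⟩ := hγ D (a δ) (ha δ hδ) h2
  simp only [hvj, hvk] at h3
  obtain ⟨h4, h5⟩ := hT δ hδ β hβ (Ne.symm hβδ)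
  obtain ⟨h4', h5'⟩ := hT β hβ δ hδ hβδ
  have hpow : ∀ n : ℕ, γ ^ n ≠ 0 := fun n => pow_ne_zero n hγ0
  rcases lt_trichotomy j k with h6 | h6 | h6
  · -- negative power
    apply h5' (k - j) (by omega) (by omega)
    apply hα (k - j) (β - δ) (by omega) ((hs β hβ).sub (hs δ hδ))
    have h7 : β - δ = -(δ - β) := by ring
    rw [h7, Complex.exp_neg, map_inv₀, ← h3, inv_div, div_eq_iff (hpow j), ← pow_add]
    congr 1
    omega
  · apply hB (δ - β) ((hs δ hδ).sub (hs β hβ)) h4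
    rw [← h3, h6, div_self (hpow k)]
  · apply h5 (j - k) (by omega) (by omega)
    apply hα (j - k) (δ - β) (by omega) ((hs δ hδ).sub (hs β hβ))
    rw [← h3, div_eq_iff (hpow k), ← pow_add]
    congr 1
    omega

end Pool.Agent.D0H21.PA
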