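import Pool.Agent.D0H21.PE.Ratio

/-!
# The ratio of the degrees of two algebraically dependent numbers
-/

set_option autoImplicit false

namespace Pool.Agent.D0H21.PA

open IntermediateField Polynomial Finset
open Pool.Agent.D0H21.PE

variable {K E : Type*} [Field K] [Field E] [Algebra K E]

/-- `[K(x, y) : K(y)] / [K(x, y) : K(x)]` -/
noncomputable def tau (K : Type*) {E : Type*} [Field K] [Field E] [Algebra K E] (x y : E) : ℚ :=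
  (relfinrank K⟮y⟯ (K⟮x⟯ ⊔ K⟮y⟯) : ℚ) / (relfinrank K⟮x⟯ (K⟮x⟯ ⊔ K⟮y⟯) : ℚ)

lemma tau_mem {x y : E} (hx : Transcendental K x) (hy : Transcendental K y) {D d : ℕ}
    (h : Rel K x y D d) :
    ∃ a b : ℕ, 1 ≤ a ∧ a ≤ D ∧ 1 ≤ b ∧ b ≤ d ∧ tau K x y = a / b := by
  obtain ⟨ha, haD⟩ := relfinrank_le_of_rel hy h
  obtain ⟨hb, hbd⟩ := relfinrank_le_of_rel hx h.symm
  rw [sup_comm] at ha haD
  exact ⟨_, _, ha, haD, hb, hbd, rfl⟩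

lemma tau_pow {x y : E} (hx : Transcendental K x) (hy : Transcendental K y) {m n : ℕ} (hm : 0 < m)
    (hn : 0 < n) {D d : ℕ} (h : Rel K (x ^ n) (y ^ m) D d) :
    0 < tau K x y ∧ tau K (x ^ n) (y ^ m) = (m : ℚ) / n * tau K x y := by
  have hxn : Transcendental K (x ^ n) := hx.pow hn
  have hym : Transcendental K (y ^ m) := hy.pow hm
  obtain ⟨ha, haD⟩ := relfinrank_le_of_rel hym h
  obtain ⟨hb, hbd⟩ := relfinrank_le_of_rel hxn h.symm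
  rw [sup_comm] at ha haD
  have h1 : K⟮x ^ n⟯ ≤ K⟮x⟯ := by
    rw [adjoin_simple_le_iff]
    exact pow_mem (mem_adjoin_simple_self K x) n
  have h2 : K⟮y ^ m⟯ ≤ K⟮y⟯ := by
    rw [adjoin_simple_le_iff]
    exact pow_mem (mem_adjoin_simple_self K y) m
  have h3 : K⟮x ^ n⟯ ⊔ K⟮y ^ m⟯ ≤ K⟮x⟯ ⊔ K⟮y⟯ := sup_le_sup h1 h2
  have e1 := relfinrank_mul_relfinrank (le_sup_left : K⟮x ^ n⟯ ≤ K⟮x ^ n⟯ ⊔ K⟮y ^ m⟯) h3
  have e2 := relfinrank_mul_relfinrank (le_sup_right : K⟮y ^ m⟯ ≤ K⟮x ^ n⟯ ⊔ K⟮y ^ m⟯) h3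
  have e3 := relfinrank_mul_relfinrank h1 (le_sup_left : K⟮x⟯ ≤ K⟮x⟯ ⊔ K⟮y⟯)
  have e4 := relfinrank_mul_relfinrank h2 (le_sup_right : K⟮y⟯ ≤ K⟮x⟯ ⊔ K⟮y⟯)
  rw [relfinrank_pow hx n hn] at e3
  rw [relfinrank_pow hy m hm] at e4
  have hu0 : 0 < relfinrank K⟮x⟯ (K⟮x⟯ ⊔ K⟮y⟯) := pos_of_rel hx hm hn h
  have hv0 : 0 < relfinrank K⟮y⟯ (K⟮x⟯ ⊔ K⟮y⟯) := by
    rw [sup_comm]; exact pos_of_rel hy hn hm h.symm
  unfold tau
  generalize relfinrank K⟮x⟯ (K⟮x⟯ ⊔ K⟮y⟯) = u at *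
  generalize relfinrank K⟮y⟯ (K⟮x⟯ ⊔ K⟮y⟯) = v at *
  generalize relfinrank K⟮y ^ m⟯ (K⟮x ^ n⟯ ⊔ K⟮y ^ m⟯) = a at *
  generalize relfinrank K⟮x ^ n⟯ (K⟮x ^ n⟯ ⊔ K⟮y ^ m⟯) = b at *
  generalize relfinrank (K⟮x ^ n⟯ ⊔ K⟮y ^ m⟯) (K⟮x⟯ ⊔ K⟮y⟯) = e at *
  have hu1 : (0 : ℚ) < u := by exact_mod_cast hu0
  have hv1 : (0 : ℚ) < v := by exact_mod_cast hv0
  have hb1 : (0 : ℚ) < b := by exact_mod_cast hb
  have ha1 : (0 : ℚ) < a := by exact_mod_cast ha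
  have hn1 : (0 : ℚ) < n := by exact_mod_cast hn
  have hm1 : (0 : ℚ) < m := by exact_mod_cast hm
  refine ⟨by positivity, ?_⟩
  have e5 : (b : ℚ) * e = n * u := by exact_mod_cast e1.trans e3.symm
  have e6 : (a : ℚ) * e = m * v := by exact_mod_cast e2.trans e4.symm
  have he : (e : ℚ) ≠ 0 := by
    intro h0
    rw [h0, mul_zero] at e5
    have : (0 : ℚ) < n * u := by positivity
    linarith
  rw [div_mul_div_comm, div_eq_div_iff (ne_of_gt hb1) (by positivity)]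
  apply mul_right_cancel₀ he
  linear_combination (n : ℚ) * u * e6 - (m : ℚ) * v * e5

end Pool.Agent.D0H21.PA
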