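import Pool.Agent.D0H21.PA.LWS

/-!
# Valuations of `ℂ` which separate the exponentials of algebraic numbers
-/

set_option autoImplicit false

namespace Pool.Agent.D0H21.PA

open Polynomial Finset

/-- Lindemann-Weierstrass: disjoint sets of exponents -/
lemma span_disjoint {P Q : Set ℂ} (hP : ∀ α ∈ P, IsAlgebraic ℚ α) (hQ : ∀ α ∈ Q, IsAlgebraic ℚ α)
    (hPQ : ∀ α ∈ P, α ∉ Q) {z : ℂ} (h1 : z ∈ Submodule.span ℚ (Complex.exp '' P))
    (h2 : z ∈ Submodule.span ℚ (Complex.exp '' Q)) : z = 0 := by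
  classical
  rw [Finsupp.mem_span_image_iff_linearCombination] at h1 h2
  obtain ⟨f, hfP, hf⟩ := h1
  obtain ⟨g, hgQ, hg⟩ := h2
  rw [Finsupp.mem_supported] at hfP hgQ
  have h3 : ∑ v ∈ f.support ∪ g.support, (((f v - g v : ℚ) : ℂ)) * Complex.exp v = 0 := by
    have e1 : z = ∑ v ∈ f.support ∪ g.support, ((f v : ℚ) : ℂ) * Complex.exp v := by
      rw [← hf, Finsupp.linearCombination_apply, Finsupp.sum]
      refine (Finset.sum_subset Finset.subset_union_left fun v _ hv => ?_).trans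
        (Finset.sum_congr rfl fun v _ => ?_)
      · rw [Finsupp.notMem_support_iff.1 hv, zero_smul]
      · rw [Algebra.smul_def]
        simp
    have e2 : z = ∑ v ∈ f.support ∪ g.support, ((g v : ℚ) : ℂ) * Complex.exp v := by
      rw [← hg, Finsupp.linearCombination_apply, Finsupp.sum]
      refine (Finset.sum_subset Finset.subset_union_right fun v _ hv => ?_).trans
        (Finset.sum_congr rfl fun v _ => ?_)
      · rw [Finsupp.notMem_support_iff.1 hv, zero_smul]
      · rw [Algebra.smul_def]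
        simp
    push_cast
    simp only [sub_mul, Finset.sum_sub_distrib]
    rw [← e1, ← e2, sub_self]
  have h4 := Pool.Agent.H340R2.LW.lindemann_weierstrass (f.support ∪ g.support) (fun v => v)
    (fun v => ((f v - g v : ℚ) : ℂ)) ?_ ?_ ?_ h3
  · have h5 : f = 0 := by
      ext v
      rw [Finsupp.zero_apply]
      by_contra hv
      have hv1 : v ∈ f.support := Finsupp.mem_support_iff.2 hv
      have hv2 := h4 v (Finset.mem_union_left _ hv1)
      have hv3 : f v = g v := by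
        have : f v - g v = 0 := by exact_mod_cast hv2
        linarith
      have hv4 : v ∈ g.support := Finsupp.mem_support_iff.2 (by rw [← hv3]; exact hv)
      exact hPQ v (hfP hv1) (hgQ hv4)
    rw [← hf, h5, map_zero]
  · intro v hv
    rcases Finset.mem_union.1 hv with h | h
    · exact hP v (hfP h)
    · exact hQ v (hgQ h)
  · intro v _
    exact isAlgebraic_algebraMap (R := ℚ) (A := ℂ) _
  · exact Function.injective_id.injOn

/-- an order modulo the kernel of `L` -/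
def Pos (L : ℂ →ₗ[ℚ] ℂ) (α : ℂ) : Prop := 0 < (L α).re ∨ ((L α).re = 0 ∧ 0 < (L α).im)

lemma Pos.add {L : ℂ →ₗ[ℚ] ℂ} {α β : ℂ} (hα : Pos L α) (hβ : Pos L β) : Pos L (α + β) := by
  unfold Pos at *
  rw [map_add, Complex.add_re, Complex.add_im]
  rcases hα with h | ⟨h, h'⟩ <;> rcases hβ with g | ⟨g, g'⟩
  · left; linarith
  · left; linarith
  · left; linarith
  · right; constructor <;> linarith

lemma Pos.add_left {L : ℂ →ₗ[ℚ] ℂ} {α β : ℂ} (hα : L α = 0) (hβ : Pos L β) : Pos L (α + β) := by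
  unfold Pos at *
  rw [map_add, hα, zero_add]
  exact hβ

lemma pos_or {L : ℂ →ₗ[ℚ] ℂ} {α : ℂ} (h : L α ≠ 0) : Pos L α ∨ Pos L (-α) := by
  unfold Pos
  rw [map_neg, Complex.neg_re, Complex.neg_im]
  rcases lt_trichotomy (L α).re 0 with h1 | h1 | h1
  · right; left; linarith
  · rcases lt_trichotomy (L α).im 0 with h2 | h2 | h2
    · right; right; constructor <;> linarith
    · exact absurd (Complex.ext h1 h2) h
    · left; right; exact ⟨h1, h2⟩
  · left; left; exact h1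

lemma not_pos {L : ℂ →ₗ[ℚ] ℂ} {α : ℂ} (h : L α = 0) : ¬ Pos L α := by
  unfold Pos
  rw [h]
  simp

lemma exists_proj (V : Submodule ℚ ℂ) : ∃ L : ℂ →ₗ[ℚ] ℂ, ∀ α, L α = 0 ↔ α ∈ V := by
  obtain ⟨V', hV'⟩ := V.exists_isCompl
  refine ⟨V'.subtype ∘ₗ V'.projectionOnto V hV'.symm, fun α => ?_⟩
  rw [LinearMap.comp_apply]
  have h1 : V'.subtype (V'.projectionOnto V hV'.symm α) = 0 ↔
      V'.projectionOnto V hV'.symm α = 0 := by
    rw [← V'.subtype.map_zero]
    exact V'.injective_subtype.eq_iff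
  rw [h1]
  exact Submodule.projectionOnto_apply_eq_zero_iff hV'.symm

/-- a sum of nonzero terms of distinct values is not zero -/
lemma sum_zero {ι Γ : Type*} [LinearOrderedCommGroupWithZero Γ] (v : Valuation ℂ Γ) (s : Finset ι)
    (f : ι → ℂ) (hinj : ∀ i ∈ s, ∀ j ∈ s, f i ≠ 0 → f j ≠ 0 → v (f i) = v (f j) → i = j)
    (h0 : ∑ i ∈ s, f i = 0) : ∀ i ∈ s, f i = 0 := by
  classical
  by_contra hne
  push Not at hne
  obtain ⟨i₁, hi₁, hf₁⟩ := hne
  obtain ⟨i₀, hi₀, hmax⟩ := Finset.exists_max_image (s.filter fun i => f i ≠ 0) (fun i => v (f i))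
    ⟨i₁, Finset.mem_filter.2 ⟨hi₁, hf₁⟩⟩
  rw [Finset.mem_filter] at hi₀
  have hv : v (f i₀) ≠ 0 := v.ne_zero_iff.2 hi₀.2
  have h1 : v (∑ i ∈ s.erase i₀, f i) < v (f i₀) := by
    refine v.map_sum_lt hv fun i hi => ?_
    rw [Finset.mem_erase] at hi
    by_cases hfi : f i = 0
    · rw [hfi, map_zero]
      exact zero_lt_iff.2 hv
    · refine lt_of_le_of_ne (hmax i (Finset.mem_filter.2 ⟨hi.2, hfi⟩)) fun h => ?_
      exact hi.1 (hinj i hi.2 i₀ hi₀.1 hfi hi₀.2 h)
  rw [← Finset.add_sum_erase s f hi₀.1] at h0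
  have h2 : ∑ i ∈ s.erase i₀, f i = - f i₀ := by linear_combination h0
  rw [h2, Valuation.map_neg] at h1
  exact lt_irrefl _ h1

/-- the valuation ring -/
theorem exists_val {V : Submodule ℚ ℂ} (hV : AlgSub V) : ∃ B : ValuationSubring ℂ,
    (∀ z ∈ AA V, z ≠ 0 → B.valuation z = 1) ∧
    (∀ α : ℂ, IsAlgebraic ℚ α → α ∉ V → B.valuation (Complex.exp α) ≠ 1) := by
  classical
  obtain ⟨L, hL⟩ := exists_proj V
  obtain ⟨P1, hP1⟩ : ∃ P1 : Set ℂ, P1 = {α | IsAlgebraic ℚ α ∧ Pos L α} := ⟨_, rfl⟩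
  obtain ⟨P, hP⟩ : ∃ P : Set ℂ, P = {α | IsAlgebraic ℚ α ∧ (α ∈ V ∨ Pos L α)} := ⟨_, rfl⟩
  obtain ⟨R0, hR0⟩ : ∃ R0 : Subalgebra ℚ ℂ, R0 = Algebra.adjoin ℚ (Complex.exp '' P) := ⟨_, rfl⟩
  obtain ⟨Y, hY⟩ : ∃ Y : Subalgebra ℚ ℂ, Y = Algebra.adjoin ℚ (Complex.exp '' (V : Set ℂ)) :=
    ⟨_, rfl⟩
  obtain ⟨M0, hM0⟩ : ∃ M0 : Submodule ℚ ℂ, M0 = Submodule.span ℚ (Complex.exp '' P1) := ⟨_, rfl⟩
  have hVP : (V : Set ℂ) ⊆ P := by
    intro v hv
    rw [hP]
    exact ⟨hV v hv, Or.inl hv⟩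
  have hP1P : P1 ⊆ P := by
    intro v hv
    rw [hP1] at hv
    rw [hP]
    exact ⟨hv.1, Or.inr hv.2⟩
  have hYR : Y ≤ R0 := by
    rw [hY, hR0]
    exact Algebra.adjoin_mono (Set.image_mono hVP)
  have hMR : ∀ z ∈ M0, z ∈ R0 := by
    intro z hz
    rw [hM0] at hz
    have h1 : Submodule.span ℚ (Complex.exp '' P1) ≤ Subalgebra.toSubmodule R0 := by
      rw [Submodule.span_le, hR0]
      exact (Set.image_mono hP1P).trans Algebra.subset_adjoin
    exact h1 hz
  have hPP1 : ∀ α ∈ P, ∀ β ∈ P1, α + β ∈ P1 := by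
    intro α hα β hβ
    rw [hP] at hα
    rw [hP1] at hβ ⊢
    refine ⟨hα.1.add hβ.1, ?_⟩
    rcases hα.2 with h | h
    · exact Pos.add_left ((hL α).2 h) hβ.2
    · exact h.add hβ.2
  have hRM : ∀ a ∈ R0, ∀ z ∈ M0, a * z ∈ M0 := by
    intro a ha
    rw [hR0] at ha
    induction ha using Algebra.adjoin_induction with
    | mem x hx =>
      obtain ⟨α, hα, rfl⟩ := hx
      intro z hz
      rw [hM0] at hz ⊢
      induction hz using Submodule.span_induction with
      | mem y hy =>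
        obtain ⟨β, hβ, rfl⟩ := hy
        rw [← Complex.exp_add]
        exact Submodule.subset_span ⟨_, hPP1 α hα β hβ, rfl⟩
      | zero => rw [mul_zero]; exact Submodule.zero_mem _
      | add y y' _ _ h1 h2 => rw [mul_add]; exact Submodule.add_mem _ h1 h2
      | smul q y _ h1 => rw [mul_smul_comm]; exact Submodule.smul_mem _ _ h1
    | algebraMap r =>
      intro z hz
      rw [← Algebra.smul_def]
      exact M0.smul_mem _ hz
    | add x y _ _ hx hy =>
      intro z hz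
      rw [add_mul]
      exact M0.add_mem (hx z hz) (hy z hz)
    | mul x y _ _ hx hy =>
      intro z hz
      rw [mul_assoc]
      exact hx _ (hy z hz)
  have hYM : ∀ z ∈ Y, z ∈ M0 → z = 0 := by
    intro z hz hz'
    rw [hM0] at hz'
    have hz1 : z ∈ Submodule.span ℚ (Complex.exp '' (V : Set ℂ)) := by
      rw [← adjoin_exp, ← hY]
      exact hz
    refine span_disjoint (P := (V : Set ℂ)) (Q := P1) (fun v hv => hV v hv) (fun v hv => ?_)
      (fun v hv hv' => ?_) hz1 hz'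
    · rw [hP1] at hv
      exact hv.1
    · rw [hP1] at hv'
      exact not_pos ((hL v).2 hv) hv'.2
  -- the ring
  let A : Subring ℂ :=
    { carrier := {z | ∃ y ∈ Y, y ≠ 0 ∧ z * y ∈ R0}
      mul_mem' := by
        rintro a b ⟨y, hy, hy0, h⟩ ⟨y', hy', hy0', h'⟩
        refine ⟨y * y', Y.mul_mem hy hy', mul_ne_zero hy0 hy0', ?_⟩
        have : a * b * (y * y') = (a * y) * (b * y') := by ring
        rw [this]
        exact R0.mul_mem h h'
      one_mem' := ⟨1, Y.one_mem, one_ne_zero, by rw [one_mul]; exact R0.one_mem⟩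
      add_mem' := by
        rintro a b ⟨y, hy, hy0, h⟩ ⟨y', hy', hy0', h'⟩
        refine ⟨y * y', Y.mul_mem hy hy', mul_ne_zero hy0 hy0', ?_⟩
        have : (a + b) * (y * y') = (a * y) * y' + (b * y') * y := by ring
        rw [this]
        exact R0.add_mem (R0.mul_mem h (hYR hy')) (R0.mul_mem h' (hYR hy))
      zero_mem' := ⟨1, Y.one_mem, one_ne_zero, by rw [zero_mul]; exact R0.zero_mem⟩
      neg_mem' := by
        rintro a ⟨y, hy, hy0, h⟩
        refine ⟨y, hy, hy0, ?_⟩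
        rw [neg_mul]
        exact R0.neg_mem h }
  have hA : ∀ z, z ∈ A ↔ ∃ y ∈ Y, y ≠ 0 ∧ z * y ∈ R0 := fun z => Iff.rfl
  let I : Ideal A :=
    { carrier := {z | ∃ y ∈ Y, y ≠ 0 ∧ (z : ℂ) * y ∈ M0}
      add_mem' := by
        rintro a b ⟨y, hy, hy0, h⟩ ⟨y', hy', hy0', h'⟩
        refine ⟨y * y', Y.mul_mem hy hy', mul_ne_zero hy0 hy0', ?_⟩
        have : ((a + b : A) : ℂ) * (y * y') = y' * (a * y) + y * (b * y') := by
          push_cast
          ring
        rw [this]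
        exact M0.add_mem (hRM _ (hYR hy') _ h) (hRM _ (hYR hy) _ h')
      zero_mem' := ⟨1, Y.one_mem, one_ne_zero, by simp⟩
      smul_mem' := by
        rintro ⟨a, y, hy, hy0, h⟩ b ⟨y', hy', hy0', h'⟩
        refine ⟨y * y', Y.mul_mem hy hy', mul_ne_zero hy0 hy0', ?_⟩
        rw [smul_eq_mul]
        have : (((⟨a, y, hy, hy0, h⟩ * b : A)) : ℂ) * (y * y') = (a * y) * (b * y') := by
          push_cast
          ring
        rw [this]
        exact hRM _ h _ h' }
  have hI : ∀ z : A, z ∈ I ↔ ∃ y ∈ Y, y ≠ 0 ∧ (z : ℂ) * y ∈ M0 := fun z => Iff.rfl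
  have hI1 : I ≠ ⊤ := by
    rw [Ideal.ne_top_iff_one, hI]
    rintro ⟨y, hy, hy0, h⟩
    rw [OneMemClass.coe_one, one_mul] at h
    exact hy0 (hYM y hy h)
  obtain ⟨B, hAB, hIB⟩ := Ideal.image_subset_nonunits_valuationSubring I hI1
  have hle : ∀ z ∈ A, B.valuation z ≤ 1 := fun z hz => (B.valuation_le_one_iff z).2 (hAB hz)
  have hlt : ∀ α, IsAlgebraic ℚ α → Pos L α → B.valuation (Complex.exp α) < 1 := by
    intro α hα hpos
    have h1 : Complex.exp α ∈ M0 := by
      rw [hM0, hP1]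
      exact Submodule.subset_span ⟨α, ⟨hα, hpos⟩, rfl⟩
    have h2 : Complex.exp α ∈ A := (hA _).2 ⟨1, Y.one_mem, one_ne_zero, by
      rw [mul_one]; exact hMR _ h1⟩
    have h3 : (⟨Complex.exp α, h2⟩ : A) ∈ I := (hI _).2 ⟨1, Y.one_mem, one_ne_zero, by
      rw [mul_one]; exact h1⟩
    have h4 := hIB ⟨_, h3, rfl⟩
    exact (ValuationSubring.mem_nonunits_iff B).1 h4
  have hYv : ∀ y ∈ Y, y ≠ 0 → B.valuation y = 1 := by
    intro y hy hy0
    apply le_antisymm
    · exact hle y ((hA _).2 ⟨1, Y.one_mem, one_ne_zero, by rw [mul_one]; exact hYR hy⟩)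
    · have h1 : B.valuation y⁻¹ ≤ 1 := hle _ ((hA _).2 ⟨y, hy, hy0, by
        rw [inv_mul_cancel₀ hy0]; exact R0.one_mem⟩)
      rw [map_inv₀] at h1
      have h2 : B.valuation y ≠ 0 := (B.valuation.ne_zero_iff).2 hy0
      rwa [inv_le_one₀ (zero_lt_iff.2 h2)] at h1
  refine ⟨B, ?_, ?_⟩
  · -- algebraic elements
    intro z hz hz0
    unfold AA at hz
    rw [mem_cl, ← hY] at hz
    by_contra hne
    obtain ⟨p, hp0, hp⟩ := hz
    rw [aeval_eq_sum_range] at hp
    have hv0 : B.valuation z ≠ 0 := (B.valuation.ne_zero_iff).2 hz0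
    have hterm : ∀ j, p.coeff j ≠ 0 → B.valuation (p.coeff j • z ^ j) = B.valuation z ^ j := by
      intro j hj
      have h1 : p.coeff j • z ^ j = (p.coeff j : ℂ) * z ^ j := rfl
      rw [h1, map_mul, hYv _ (p.coeff j).2 (fun h => hj (Subtype.ext h)), one_mul, map_pow]
    apply hp0
    ext j
    rw [coeff_zero]
    by_contra hj0
    have hj : j ∈ range (p.natDegree + 1) := by
      rw [Finset.mem_range]
      have := le_natDegree_of_ne_zero (fun h => hj0 (by rw [h]))
      omega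
    have h5 := sum_zero B.valuation (range (p.natDegree + 1)) (fun j => p.coeff j • z ^ j) ?_ hp j hj
    · have h6 : (p.coeff j : ℂ) * z ^ j = 0 := h5
      rcases mul_eq_zero.1 h6 with h7 | h7
      · exact hj0 h7
      · exact pow_ne_zero j hz0 h7
    · intro i _ k _ hi hk hik
      have hi0 : p.coeff i ≠ 0 := by
        intro h
        apply hi
        simp only [h, zero_smul]
      have hk0 : p.coeff k ≠ 0 := by
        intro h
        apply hk
        simp only [h, zero_smul]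
      simp only [hterm i hi0, hterm k hk0] at hik
      exact pow_right_injective₀ (zero_lt_iff.2 hv0) hne hik
  · intro α hα hαV
    have h1 : L α ≠ 0 := fun h => hαV ((hL α).1 h)
    rcases pos_or h1 with h | h
    · exact (hlt α hα h).ne
    · have h2 := hlt (-α) hα.neg h
      rw [Complex.exp_neg, map_inv₀] at h2
      intro h3
      rw [h3, inv_one] at h2
      exact lt_irrefl _ h2

end Pool.Agent.D0H21.PA
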